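import Pool.Agent.helper5.LDH.Spec
import Pool.Agent.helper63.ED.PW
import Pool.Agent.helper71.ED.CR

/-!
# Project LDH (MP_4467b5_nt), row PWB

The `k`-th power of a Dirichlet polynomial on `(N, 2N]` is the sum of `k` dyadic blocks; where the
polynomial is large, one of the blocks is large.
-/

set_option autoImplicit false

open Complex MeasureTheory

namespace Pool.Agent.LDH

open Pool.Agent.helper84.DM Pool.Agent.helper78.ED Pool.Agent.DH

theorem PWB_split (N : ℕ) (a b : ℕ → ℂ) (k : ℕ) (t : ℝ)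
    (h : ∀ s : ℂ, (∑ n ∈ Finset.Ioc N (2 * N), a n * (n : ℂ) ^ (-s)) ^ k
        = ∑ n ∈ Finset.Ioc (N ^ k) ((2 * N) ^ k), b n * (n : ℂ) ^ (-s)) :
    DP N a t ^ k = ∑ i ∈ Finset.range k, DP (2 ^ i * N ^ k) b t := by
  unfold DP
  rw [h ((t : ℂ) * I), mul_pow, CR_dyadic]

theorem PWB : PWB_stmt := by
  intro N a B V k hN hB hV hk ha
  obtain ⟨b, hb, hs⟩ := pow_poly N hN a B hB ha k hk
  refine ⟨b, hb, fun t ht => ?_⟩
  by_contra hcon
  push Not at hcon
  have hk0 : (0 : ℝ) < k := by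
    have : 0 < k := hk
    exact_mod_cast this
  have h1 : V ^ k ≤ ‖DP N a t‖ ^ k := pow_le_pow_left₀ hV ht k
  have h2 : ‖DP N a t‖ ^ k = ‖∑ i ∈ Finset.range k, DP (2 ^ i * N ^ k) b t‖ := by
    rw [← PWB_split N a b k t hs, norm_pow]
  have h3 : ‖∑ i ∈ Finset.range k, DP (2 ^ i * N ^ k) b t‖ ≤
      ∑ i ∈ Finset.range k, ‖DP (2 ^ i * N ^ k) b t‖ := norm_sum_le _ _
  have hne : (Finset.range k).Nonempty := Finset.nonempty_range_iff.2 (by omega)
  have h4 : ∑ i ∈ Finset.range k, ‖DP (2 ^ i * N ^ k) b t‖ < ∑ _i ∈ Finset.range k, V ^ k / k :=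
    Finset.sum_lt_sum_of_nonempty hne hcon
  have h5 : ∑ _i ∈ Finset.range k, V ^ k / (k : ℝ) = V ^ k := by
    rw [Finset.sum_const, Finset.card_range, nsmul_eq_mul]
    field_simp
  linarith

end Pool.Agent.LDH
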